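import Pool.Agent.Lib.MP_7906d6_an.Alexander
import Pool.Agent.Lib.MP_7906d6_an.Cont

/-!
Jet determination in every class of proper holomorphic maps between balls that contains the maps
continuous on the closed ball.
-/

namespace Pool.Agent.Results.MP_7906d6_an.HolClass

open Metric Set Module Pool.Agent.Lib.MP_7906d6_an

section Defs

variable {E : Type} [NormedAddCommGroup E] [NormedSpace ℂ E]
  {G : Type} [NormedAddCommGroup G] [NormedSpace ℂ G]

/-- `F` restricts to a proper holomorphic map from the open unit ball of `E` to that of `G`. -/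
def IsProperHol (F : E → G) : Prop :=
  DifferentiableOn ℂ F (ball 0 1) ∧ MapsTo F (ball 0 1) (ball 0 1) ∧
    ∀ K ⊆ ball (0 : G) 1, IsCompact K → IsCompact (ball 0 1 ∩ F ⁻¹' K)

/-- `F` and `F'` have the same complex derivatives of every order `k ≤ r` at the origin. -/
def SameJet (r : ℕ) (F F' : E → G) : Prop :=
  ∀ k ≤ r, iteratedFDeriv ℂ k F 0 = iteratedFDeriv ℂ k F' 0

/-- The maps in the class `C` are determined on the unit ball by their `r`-jets at `0`. -/
def Determined (C : Set (E → G)) (r : ℕ) : Prop :=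
  ∀ F ∈ C, ∀ F' ∈ C, SameJet r F F' → EqOn F F' (ball 0 1)

/-- The least `r` with the determination property, and `⊤` if there is none. -/
noncomputable def rJet (C : Set (E → G)) : ℕ∞ := ⨅ (r : ℕ) (_ : Determined C r), (r : ℕ∞)

end Defs

variable {E : Type} [NormedAddCommGroup E] [InnerProductSpace ℂ E] [FiniteDimensional ℂ E]
  {G : Type} [NormedAddCommGroup G] [InnerProductSpace ℂ G] [FiniteDimensional ℂ G]

theorem isProperHol_iff {F : E → G} : IsProperHol F ↔ PH F := by
  have : ProperSpace E := FiniteDimensional.proper ℂ E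
  have : ProperSpace G := FiniteDimensional.proper ℂ G
  constructor
  · rintro ⟨h1, h2, h3⟩
    refine ⟨h1, h2, fun t ht => ?_⟩
    obtain ⟨m, hm, hm1⟩ := (h3 _ (closedBall_subset_ball ht)
      (isCompact_closedBall 0 t)).exists_forall_le' (f := fun z => 1 - ‖z‖) (a := 0) (by fun_prop)
      (fun z hz => sub_pos.2 (mem_ball_zero_iff.1 hz.1))
    refine ⟨1 - m, by linarith, fun z hz hzt => ?_⟩
    have := hm1 z ⟨mem_ball_zero_iff.2 hz, mem_closedBall_zero_iff.2 hzt⟩
    linarith
  · intro h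
    refine ⟨h.diff, h.maps, fun K hK hKc => ?_⟩
    obtain ⟨m, hm, hm1⟩ := hKc.exists_forall_le' (f := fun z => 1 - ‖z‖) (a := 0) (by fun_prop)
      (fun z hz => sub_pos.2 (mem_ball_zero_iff.1 (hK hz)))
    obtain ⟨r, hr, hr1⟩ := h.prop (1 - m) (by linarith)
    have : ball 0 1 ∩ F ⁻¹' K = closedBall 0 r ∩ F ⁻¹' K := by
      ext z
      refine and_congr_left fun hz => ⟨fun h1 => ?_, fun h1 => closedBall_subset_ball hr h1⟩
      have := hm1 _ hz
      exact mem_closedBall_zero_iff.2 (hr1 z (mem_ball_zero_iff.1 h1) (by linarith))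
    rw [this]
    exact (isCompact_closedBall 0 r).of_isClosed_subset
      ((h.diff.continuousOn.mono (closedBall_subset_ball hr)).preimage_isClosed_of_isClosed
        isClosed_closedBall hKc.isClosed) inter_subset_left

theorem not_determined [Nontrivial E] {C : Set (E → G)}
    (hC : ∀ F, IsProperHol F → ContinuousOn F (closedBall 0 1) → F ∈ C) {r : ℕ} {F : E → G}
    (hF : PH F) (hc : ContinuousOn F (closedBall 0 1))
    (h : ∀ z, ‖z‖ ≤ 1 / 2 → ‖F z‖ ≤ ‖z‖ ^ (r + 1)) : ¬ Determined C r := by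
  have : CompleteSpace G := FiniteDimensional.complete ℂ G
  intro hd
  have hF' : PH (-F) := ⟨hF.diff.neg, fun z hz => by simpa using hF.maps hz,
    fun t ht => by simpa using hF.prop t ht⟩
  have h0 : ∀ k ≤ r, iteratedFDeriv ℂ k F 0 = 0 := by
    intro k hk
    refine iteratedFDeriv_eq_zero k (δ := 1 / 2) (C := 1) (by norm_num)
      (hF.diff.mono (ball_subset_ball (by norm_num))) fun t ht0 ht z hz => ?_
    calc ‖F z‖ ≤ ‖z‖ ^ (r + 1) := h z (by linarith)
      _ ≤ t ^ (r + 1) := by gcongr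
      _ ≤ t ^ (k + 1) := pow_le_pow_of_le_one ht0.le (by linarith) (by omega)
      _ = _ := (one_mul _).symm
  have h1 := hd F (hC F (isProperHol_iff.2 hF) hc) (-F) (hC _ (isProperHol_iff.2 hF') hc.neg)
    fun k hk => by rw [iteratedFDeriv_neg_apply, h0 k hk, neg_zero]
  obtain ⟨s, hs, hs1⟩ := hF.prop 0 one_pos
  obtain ⟨z, hz⟩ := exists_norm_eq E (c := (1 + max s 0) / 2) (by positivity)
  have h2 : max s 0 < 1 := max_lt hs one_pos
  have h3 : ‖z‖ < 1 := by linarith
  have h4 : F z = 0 := by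
    have h5 : F z = -F z := h1 (mem_ball_zero_iff.2 h3)
    rw [eq_neg_iff_add_eq_zero, ← two_smul ℂ] at h5
    simpa using h5
  have := hs1 z h3 (by simp [h4])
  linarith [le_max_left s 0]

theorem determined_one {C : Set (E → E)} (hC : ∀ F ∈ C, IsProperHol F) (hn : 2 ≤ finrank ℂ E) :
    Determined C 1 := by
  intro F hF F' hF' h
  refine unique_one_jet (isProperHol_iff.1 (hC F hF)) (isProperHol_iff.1 (hC F' hF')) hn ?_ ?_
  · have := congrArg (fun L => L Fin.elim0) (h 0 (by norm_num))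
    simpa using this
  · ext1 v
    have := congrArg (fun L => L fun _ => v) (h 1 le_rfl)
    simpa using this

theorem exists_flat_one (q : ℕ) : ∃ F : EuclideanSpace ℂ (Fin 1) → EuclideanSpace ℂ (Fin 1),
    PH F ∧ ContinuousOn F (closedBall 0 1) ∧ ∀ z, ‖z‖ ≤ 1 / 2 → ‖F z‖ ≤ ‖z‖ ^ (q + 1) := by
  have h : ∀ z : EuclideanSpace ℂ (Fin 1), ‖z 0 ^ q • z‖ = ‖z‖ ^ (q + 1) := by
    intro z
    have : ‖z 0‖ = ‖z‖ := by simp [EuclideanSpace.norm_eq]
    rw [norm_smul, norm_pow, this, pow_succ]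
  refine ⟨fun z => z 0 ^ q • z, ⟨by fun_prop, fun z hz => ?_, fun t ht => ?_⟩,
    by fun_prop, fun z _ => (h z).le⟩
  · rw [mem_ball_zero_iff] at hz ⊢
    rw [h]
    exact pow_lt_one₀ (norm_nonneg _) hz (by omega)
  · have h1 : Filter.Tendsto (fun x : ℝ => x ^ (q + 1)) (nhdsWithin 1 (Iio 1)) (nhds 1) := by
      have : Filter.Tendsto (fun x : ℝ => x ^ (q + 1)) (nhds 1) (nhds (1 ^ (q + 1))) :=
        Continuous.tendsto (by fun_prop) 1
      simpa using this.mono_left nhdsWithin_le_nhds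
    obtain ⟨r, hr1, hr2⟩ := ((h1.eventually (lt_mem_nhds ht)).and
      (Ioo_mem_nhdsLT (zero_lt_one' ℝ))).exists
    refine ⟨r, hr2.2, fun z _ hz => ?_⟩
    rw [h] at hz
    exact (lt_of_pow_lt_pow_left₀ (q + 1) hr2.1.le (hz.trans_lt hr1)).le

theorem result (n N : ℕ) (hn : 1 ≤ n) (hN : 1 ≤ N)
    (C : Set (EuclideanSpace ℂ (Fin n) → EuclideanSpace ℂ (Fin N)))
    (hlow : ∀ F, IsProperHol F → ContinuousOn F (closedBall 0 1) → F ∈ C)
    (hupp : ∀ F ∈ C, IsProperHol F) :
    rJet C = if N < n then 0 else if N = n ∧ 2 ≤ n then 1 else ⊤ := by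
  have : Nonempty (Fin n) := ⟨⟨0, hn⟩⟩
  split_ifs with h1 h2
  · refine le_antisymm (iInf₂_le_of_le 0 (fun F hF _ _ _ => ?_) le_rfl) zero_le
    have := (isProperHol_iff.1 (hupp F hF)).finrank_le
    simp at this
    omega
  · obtain ⟨rfl, h2⟩ := h2
    refine le_antisymm (iInf₂_le_of_le 1 (determined_one hupp (by simpa using h2)) le_rfl)
      (le_iInf₂ fun r hr => ?_)
    rcases r with _ | r
    · exact absurd hr (not_determined hlow (F := id) ⟨differentiableOn_id, mapsTo_id _,
        fun t ht => ⟨t, ht, fun _ _ h => h⟩⟩ continuousOn_id (by simp))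
    · exact_mod_cast Nat.le_add_left 1 r
  · rw [rJet, iInf₂_eq_top]
    intro r hr
    exfalso
    by_cases h3 : N = n
    · obtain rfl : n = 1 := by omega
      subst h3
      obtain ⟨F, hF, hc, h⟩ := exists_flat_one r
      exact not_determined hlow hF hc h hr
    · obtain ⟨F, hF, hc, h⟩ := exists_flatC (E := EuclideanSpace ℂ (Fin n))
        (G := EuclideanSpace ℂ (Fin N)) (by simp; omega) r
      exact not_determined hlow hF hc h hr

end Pool.Agent.Results.MP_7906d6_an.HolClass
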