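import Pool.Agent.Lib.MP_7906d6_an.SupB

/-!
Jet determination of proper rational maps between balls: in every source dimension `n ≥ 2` the
order `r_rat(n, N)` grows at least like `N ^ (1 + 1 / (n (n - 1)))`, faster than linearly in `N`.
-/

namespace Pool.Agent.Results.MP_7906d6_an.Superlinear

open Metric Set Filter Topology Pool.Agent.Lib.MP_7906d6_an Pool.Agent.Lib.MP_7906d6_an.Rat

/-- `F` restricts to a proper holomorphic map from the open unit ball of `ℂ^n` to that of `ℂ^N`,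
and equals `p / q` there, with `p` a polynomial map and `q` a polynomial without zeros there. -/
def IsProperRat {n N : ℕ} (F : EuclideanSpace ℂ (Fin n) → EuclideanSpace ℂ (Fin N)) : Prop :=
  DifferentiableOn ℂ F (ball 0 1) ∧ MapsTo F (ball 0 1) (ball 0 1) ∧
    (∀ K ⊆ ball 0 1, IsCompact K → IsCompact (ball 0 1 ∩ F ⁻¹' K)) ∧
    ∃ (p : Fin N → MvPolynomial (Fin n) ℂ) (q : MvPolynomial (Fin n) ℂ), ∀ z ∈ ball 0 1,
      MvPolynomial.eval z.ofLp q ≠ 0 ∧
        ∀ j, (F z).ofLp j = MvPolynomial.eval z.ofLp (p j) / MvPolynomial.eval z.ofLp q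

/-- `F` and `F'` have the same complex derivatives of every order `k ≤ r` at the origin. -/
def SameJet {n N : ℕ} (r : ℕ) (F F' : EuclideanSpace ℂ (Fin n) → EuclideanSpace ℂ (Fin N)) :
    Prop :=
  ∀ k ≤ r, iteratedFDeriv ℂ k F 0 = iteratedFDeriv ℂ k F' 0

/-- Proper rational maps between the unit balls are determined by their `r`-jets at `0`. -/
def Determined (n N r : ℕ) : Prop :=
  ∀ F F' : EuclideanSpace ℂ (Fin n) → EuclideanSpace ℂ (Fin N),
    IsProperRat F → IsProperRat F' → SameJet r F F' → EqOn F F' (ball 0 1)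

/-- The least `r` with the determination property, and `⊤` if there is none. -/
noncomputable def rRat (n N : ℕ) : ℕ∞ := ⨅ (r : ℕ) (_ : Determined n N r), (r : ℕ∞)

/-- A polynomial sphere map with a nonzero component vanishing to order `d` at the origin is not
determined by its jet of order less than `d`. -/
theorem not_determined {m M N d r : ℕ} {y : (Fin (m + 1) → ℂ) → ℂ} (hy : PM y)
    (hs : Sup.SOS M fun z => 1 - Complex.normSq (y z)) (hN : M + 1 ≤ N) {C : ℝ} (hC : 0 ≤ C)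
    (hd : ∀ z : EuclideanSpace ℂ (Fin (m + 1)), ‖y z.ofLp‖ ≤ C * ‖z‖ ^ d)
    {x : EuclideanSpace ℂ (Fin (m + 1))} (hx : x ∈ ball 0 1) (hyx : y x.ofLp ≠ 0) (hr : r < d) :
    ¬ Determined (m + 1) N r := by
  intro h
  obtain ⟨g, hg, hs⟩ := hs
  obtain ⟨ι⟩ : Nonempty (Option (Fin M) ↪ Fin N) :=
    Function.Embedding.nonempty_of_card_le (by simpa using hN)
  obtain ⟨Y, hY⟩ := Sup.pm_mv hy
  choose G hG using fun i => Sup.pm_mv (Sup.pm_coord hg i)
  obtain ⟨p, hp1, hp2, hp0⟩ : ∃ p : ℂ → Fin N → MvPolynomial (Fin (m + 1)) ℂ,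
      (∀ s, p s (ι none) = MvPolynomial.C s * Y) ∧ (∀ s i, p s (ι (some i)) = G i) ∧
        ∀ s j, (¬∃ o, ι o = j) → p s j = 0 :=
    ⟨fun s => Function.extend ι (fun o => o.elim (MvPolynomial.C s * Y) G) 0,
      fun s => by simp only [ι.injective.extend_apply, Option.elim_none],
      fun s i => by simp only [ι.injective.extend_apply, Option.elim_some],
      fun s j => Function.extend_apply' _ _ _⟩
  obtain ⟨W, hWp⟩ : ∃ W : ℂ → EuclideanSpace ℂ (Fin (m + 1)) → EuclideanSpace ℂ (Fin N),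
      ∀ s z j, (W s z).ofLp j = MvPolynomial.eval z.ofLp (p s j) :=
    ⟨fun s z => WithLp.toLp 2 fun j => MvPolynomial.eval z.ofLp (p s j), fun _ _ _ => rfl⟩
  have hdiff : ∀ s, Differentiable ℂ (W s) := fun s => differentiable_euclidean.2 fun j => by
    simp only [hWp, MvPolynomial.eval_eq]
    fun_prop
  have hy0 : y (0 : EuclideanSpace ℂ (Fin (m + 1))).ofLp = 0 := by
    simpa [zero_pow (by omega : d ≠ 0)] using hd 0
  have hW : ∀ s, Complex.normSq s = 1 → IsProperRat (W s) := by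
    intro s hs1
    have e : ∀ z, ‖z‖ = 1 → ‖W s z‖ = 1 := by
      intro z hz
      have h1 := hs z.ofLp (by rw [nsq_eq_norm, hz, one_pow])
      have h2 : Complex.normSq (y z.ofLp) + nsq (g z.ofLp) = nsq (W s z).ofLp := by
        rw [nsq, nsq, ← Fintype.sum_of_injective ι ι.injective
          (fun o => Complex.normSq ((W s z).ofLp (ι o))) _ (fun j hj => ?_) fun o => rfl]
        · simp [hWp, hp1, hp2, hs1, ← hY, ← hG]
        · simp [hWp, hp0 s j hj]
      rw [← sq_eq_sq₀ (norm_nonneg _) zero_le_one, ← nsq_eq_norm, ← h2]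
      simp only at h1
      linarith
    have h1 : ∀ z ∈ ball 0 1, ‖W s z‖ ≤ 1 := fun z hz =>
      Complex.norm_le_of_forall_mem_frontier_norm_le isBounded_ball (hdiff s).diffContOnCl
        (fun w hw => (e w (by simpa [frontier_ball _ one_ne_zero] using hw)).le) (subset_closure hz)
    have h2 : MapsTo (W s) (ball 0 1) (ball 0 1) := fun z hz => by
      rw [mem_ball_zero_iff]
      by_contra! hge
      have h3 := Complex.eq_const_of_exists_max (hdiff s).differentiableOn hz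
        fun w hw => (h1 w hw).trans hge
      have h4 := congrArg (fun v => v.ofLp (ι none))
        ((h3 hx).trans (h3 (mem_ball_self one_pos)).symm)
      simp only [hWp, hp1, map_mul, MvPolynomial.eval_C, ← hY, hy0, mul_zero, mul_eq_zero] at h4
      rcases h4 with h4 | h4
      · simp [h4] at hs1
      · exact hyx h4
    refine ⟨(hdiff s).differentiableOn, h2, fun K hK hKc => ?_, p s, 1, fun z _ => by simp [hWp]⟩
    have : ball 0 1 ∩ W s ⁻¹' K = closedBall 0 1 ∩ W s ⁻¹' K := by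
      refine (inter_subset_inter_left _ ball_subset_closedBall).antisymm fun z hz => ⟨?_, hz.2⟩
      refine mem_ball_zero_iff.2 ((mem_closedBall_zero_iff.1 hz.1).lt_of_ne fun h0 => ?_)
      exact (mem_ball_zero_iff.1 (hK hz.2)).ne (e z h0)
    rw [this]
    exact (isCompact_closedBall 0 1).inter_right (hKc.isClosed.preimage (hdiff s).continuous)
  have e : ∀ z, (W 1 - W (-1)) z = EuclideanSpace.single (ι none) (2 * y z.ofLp) := by
    intro z
    ext j
    by_cases hj : ∃ o, ι o = j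
    · obtain ⟨_ | o, rfl⟩ := hj
      · simp [hWp, hp1, hY, two_mul]
      · simp [hWp, hp2]
    · have : j ≠ ι none := fun h0 => hj ⟨none, h0.symm⟩
      simp [hWp, hp0 _ j hj, this]
  have h1 := h _ _ (hW 1 (by simp)) (hW (-1) (by simp)) fun k hk => by
    rw [← sub_eq_zero, ← iteratedFDeriv_sub_apply (contDiffAt_zero (hdiff _).differentiableOn k)
      (contDiffAt_zero (hdiff _).differentiableOn k)]
    refine iteratedFDeriv_eq_zero k (δ := 1) (C := 2 * C) one_pos
      ((hdiff _).sub (hdiff _)).differentiableOn fun t h0 h1 z hz => ?_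
    rw [e, PiLp.norm_single, norm_mul, Complex.norm_two, mul_assoc]
    refine mul_le_mul_of_nonneg_left ((hd z).trans (mul_le_mul_of_nonneg_left ?_ hC)) zero_le_two
    exact (pow_le_pow_left₀ (norm_nonneg _) hz.le d).trans
      (pow_le_pow_of_le_one h0.le h1.le (by omega))
  have h3 := (e _).symm.trans (sub_eq_zero.2 (h1 hx))
  simp only [PiLp.single_eq_zero_iff, mul_eq_zero, OfNat.ofNat_ne_zero, false_or] at h3
  exact hyx h3

theorem one_le {m N r : ℕ} (hN : m + 1 ≤ N) (h : Determined (m + 1) N r) : 1 ≤ r := by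
  by_contra! hr
  refine not_determined (M := m) (y := fun z => z 0) (PM.proj 0) ?_ hN zero_le_one (d := 1)
    (fun z => by simpa using PiLp.norm_apply_le z 0) (x := EuclideanSpace.single 0 (1 / 2))
    (by simp; norm_num) (by simp) hr h
  refine ⟨fun z i => z i.succ, PM.pi fun i => PM.proj _, fun z hz => ?_⟩
  rw [nsq, Fin.sum_univ_succ] at hz
  simp only [nsq]
  linarith

theorem pow_le (m : ℕ) : ∃ A : ℕ, ∀ t N r : ℕ, 1 ≤ t → A * t ^ (m * (m + 1)) + 1 ≤ N →
    Determined (m + 1) N r → t ^ (m * (m + 1) + 1) ≤ r := by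
  obtain ⟨A, hA⟩ := Sup.main m
  refine ⟨A, fun t N r ht hN h => ?_⟩
  obtain ⟨c, p, hc, hp, hs⟩ := hA t ht
  by_contra! hr
  refine not_determined
    (PM.prod fun j => (PM.const _).mul ((PM.id'.dot (PM.const _)).pow _)) hs hN
    (C := ∏ j ∈ Finset.range ((t ^ m) ^ m), (c * (∑ a, ‖p j a‖) ^ t ^ (m + 1)))
    (by positivity) (fun z => ?_) (x := EuclideanSpace.single 0 (1 / 2)) (by simp; norm_num)
    (Finset.prod_ne_zero_iff.2 fun j _ => by simp [hp, hc.ne']) hr h
  have e : ‖z‖ ^ t ^ (m * (m + 1) + 1) =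
      ∏ _j ∈ Finset.range ((t ^ m) ^ m), ‖z‖ ^ t ^ (m + 1) := by
    rw [Finset.prod_const, Finset.card_range, ← pow_mul]
    congr 1
    ring
  rw [e, ← Finset.prod_mul_distrib, norm_prod]
  refine Finset.prod_le_prod (fun j _ => norm_nonneg _) fun j _ => ?_
  rw [norm_mul, norm_pow, Complex.norm_real, Real.norm_of_nonneg hc.le, mul_assoc, ← mul_pow]
  gcongr
  rw [Finset.sum_mul]
  refine (norm_sum_le _ _).trans (Finset.sum_le_sum fun a _ => ?_)
  rw [norm_mul, mul_comm]
  gcongr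
  exact PiLp.norm_apply_le z a

theorem result (n : ℕ) (hn : 2 ≤ n) : ∃ c : ℝ, 0 < c ∧ ∀ N : ℕ, n ≤ N →
    ((⌈c * (N : ℝ) ^ (1 + 1 / ((n : ℝ) * (n - 1)))⌉₊ : ℕ) : ℕ∞) ≤ rRat n N := by
  obtain ⟨m, rfl⟩ : ∃ m, n = m + 1 := ⟨n - 1, by omega⟩
  obtain ⟨A, hA⟩ := pow_le m
  obtain ⟨D, hD⟩ : ∃ D, D = m * (m + 1) := ⟨_, rfl⟩
  have hD0 : D ≠ 0 := hD ▸ mul_ne_zero (by omega) (by omega)
  rw [← hD] at hA
  have hexp : (1 + 1 / (((m + 1 : ℕ) : ℝ) * ((m + 1 : ℕ) - 1))) = 1 + (D : ℝ)⁻¹ := by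
    rw [hD]
    push_cast
    ring
  set B : ℝ := (A + 1) * 2 ^ D with hB
  have hB0 : 0 < B := by positivity
  refine ⟨(B ^ (1 + (D : ℝ)⁻¹))⁻¹, by positivity, fun N hN => le_iInf₂ fun r hr => ?_⟩
  rw [Nat.cast_le, Nat.ceil_le, hexp, inv_mul_le_iff₀ (by positivity)]
  have key : ∃ t : ℕ, 1 ≤ t ∧ (N : ℝ) ≤ B * t ^ D ∧ t ^ (D + 1) ≤ r := by
    by_cases h1 : N < A + 1
    · refine ⟨1, le_rfl, ?_, by simpa using one_le hN hr⟩
      have h2 : (N : ℝ) ≤ A + 1 := by exact_mod_cast h1.le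
      have h3 : (1 : ℝ) ≤ 2 ^ D := one_le_pow₀ one_le_two
      have h4 : (0 : ℝ) ≤ A + 1 := by positivity
      simp only [hB, Nat.cast_one, one_pow, mul_one]
      nlinarith
    · have hex : ∃ t, N < A * (t + 2) ^ D + (t + 2) ^ D :=
        ⟨N, lt_add_of_nonneg_of_lt (Nat.zero_le _)
          (lt_of_lt_of_le (by omega) (Nat.le_self_pow hD0 _))⟩
      have h2 := Nat.find_spec hex
      have h3 : A * (Nat.find hex + 1) ^ D + (Nat.find hex + 1) ^ D ≤ N := by
        rcases h : Nat.find hex with _ | t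
        · simpa using h1
        · exact not_lt.1 (Nat.find_min hex (m := t) (by omega))
      set t := Nat.find hex
      refine ⟨t + 1, by omega, ?_, hA _ N r (by omega) (le_trans (Nat.add_le_add_left
        (Nat.one_le_pow _ _ (by omega)) _) h3) hr⟩
      have h4 : (t + 2) ^ D ≤ 2 ^ D * (t + 1) ^ D := by
        rw [← mul_pow]
        exact Nat.pow_le_pow_left (by omega) D
      have h5 : N ≤ (A + 1) * 2 ^ D * (t + 1) ^ D := by nlinarith
      rw [hB]
      exact_mod_cast h5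
  obtain ⟨t, ht, h1, h2⟩ := key
  calc (N : ℝ) ^ (1 + (D : ℝ)⁻¹) ≤ (B * t ^ D) ^ (1 + (D : ℝ)⁻¹) := by gcongr
    _ = B ^ (1 + (D : ℝ)⁻¹) * t ^ (D + 1) := by
      rw [Real.mul_rpow hB0.le (by positivity), Real.rpow_add (by positivity) 1, Real.rpow_one,
        Real.rpow_add (by positivity) 1, Real.rpow_one,
        Real.pow_rpow_inv_natCast (Nat.cast_nonneg _) hD0, pow_succ]
    _ ≤ _ := by
      gcongr
      exact_mod_cast h2

end Pool.Agent.Results.MP_7906d6_an.Superlinear
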